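import Pool.Agent.Lib.MP_f1c158_al.Final

set_option autoImplicit false

namespace Pool.Agent.Results.MP_f1c158_al.HopfTensor

open scoped TensorProduct

section defs

variable {k H R : Type} [Field k] [Ring H] [HopfAlgebra k H] [Ring R] [Algebra k R]

/-- The linear map `H ⊗ H → R` with `b ⊗ c ↦ (b · x) (c · y)`. -/
noncomputable def actTwo (act : H →ₐ[k] Module.End k R) (x y : R) : H ⊗[k] H →ₗ[k] R :=
  LinearMap.mul' k R ∘ₗ TensorProduct.map (act.toLinearMap.flip x) (act.toLinearMap.flip y)

/-- `R` is a left `H`-module algebra: it is an `H`-module (`act` is an algebra homomorphism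
`H → End_k R`), `h · (x y) = ∑ (h₁ · x) (h₂ · y)` and `h · 1 = ε(h) 1`. -/
structure IsModuleAlgebra (act : H →ₐ[k] Module.End k R) : Prop where
  act_mul : ∀ (h : H) (x y : R), act h (x * y) = actTwo act x y (Coalgebra.comul (R := k) h)
  act_one : ∀ h : H, act h 1 = algebraMap k R (Coalgebra.counit (R := k) h)

/-- A term `a₀ (h₁ · x_{σ(1)}) a₁ (h₂ · x_{σ(2)}) a₂ ⋯ (h_n · x_{σ(n)}) a_n` (variables, operators
and the coefficients after the first one are indexed by `Fin n`, i.e. from `0`). -/
structure Term (H R : Type) (n : ℕ) where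
  first : R
  coeff : Fin n → R
  op : Fin n → H
  order : Equiv.Perm (Fin n)

/-- The value of a term at `r₁, …, r_n`. -/
noncomputable def Term.eval {n : ℕ} (act : H →ₐ[k] Module.End k R) (t : Term H R n)
    (r : Fin n → R) : R :=
  t.first * (List.ofFn fun i => act (t.op i) (r (t.order i)) * t.coeff i).prod

/-- The value of a multilinear generalized polynomial (a finite list of terms). -/
noncomputable def evalPoly {n : ℕ} (act : H →ₐ[k] Module.End k R) (f : List (Term H R n))
    (r : Fin n → R) : R :=
  (f.map fun t => t.eval act r).sum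

/-- The generalized monomial `f_σ`: the terms in which the variables occur in the order `σ`. -/
def monomialPart {n : ℕ} (f : List (Term H R n)) (σ : Equiv.Perm (Fin n)) : List (Term H R n) :=
  f.filter fun t => t.order = σ

/-- `f` is a generalized identity of `R`. -/
def IsIdentity {n : ℕ} (act : H →ₐ[k] Module.End k R) (f : List (Term H R n)) : Prop :=
  ∀ r : Fin n → R, evalPoly act f r = 0

/-- `f` is essential: the two-sided ideal generated by all values of all `f_σ` contains `1`. -/
def IsEssential {n : ℕ} (act : H →ₐ[k] Module.End k R) (f : List (Term H R n)) : Prop :=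
  (1 : R) ∈ TwoSidedIdeal.span
    {y : R | ∃ (σ : Equiv.Perm (Fin n)) (r : Fin n → R), y = evalPoly act (monomialPart f σ) r}

variable (k R)

/-- `R` is a PI algebra over `k`. -/
def IsPI : Prop :=
  ∃ (m : ℕ) (p : FreeAlgebra k (Fin m)), p ≠ 0 ∧ ∀ r : Fin m → R, FreeAlgebra.lift k r p = 0

end defs

/-- **An essential generalized identity with Hopf operators does not force a polynomial
identity.** There are a Hopf algebra `H` over the field with two elements, an `H`-module algebra
`R` and an element `h` of `H` such that `(h · x₀)(h · x₁) + (h · x₁)(h · x₀)` is an essential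
generalized identity of `R`, and `R` satisfies no nonzero polynomial identity. -/
theorem result :
    ∃ (H : Type) (_ : Ring H) (_ : HopfAlgebra (ZMod 2) H) (R : Type) (_ : Ring R)
      (_ : Algebra (ZMod 2) R) (act : H →ₐ[ZMod 2] Module.End (ZMod 2) R),
      IsModuleAlgebra act ∧
      (∃ h : H,
        IsIdentity act
          [(⟨1, fun _ => 1, fun _ => h, 1⟩ : Term H R 2),
            ⟨1, fun _ => 1, fun _ => h, Equiv.swap 0 1⟩] ∧
        IsEssential act
          [(⟨1, fun _ => 1, fun _ => h, 1⟩ : Term H R 2),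
            ⟨1, fun _ => 1, fun _ => h, Equiv.swap 0 1⟩]) ∧
      ¬ IsPI (ZMod 2) R := by
  refine ⟨Pool.Agent.MP_f1c158_al.HH (ZMod 2), inferInstance, inferInstance,
    Pool.Agent.MP_f1c158_al.RR, inferInstance, inferInstance,
    Pool.Agent.MP_f1c158_al.act, ?_, ?_, ?_⟩
  · refine ⟨fun h x y => ?_, fun h => Pool.Agent.MP_f1c158_al.act_unit h⟩
    rw [Pool.Agent.MP_f1c158_al.act_mod h x y]
    have : (TensorProduct.lift ((LinearMap.mul (ZMod 2) Pool.Agent.MP_f1c158_al.RR).compl₁₂
          (Pool.Agent.MP_f1c158_al.act.toLinearMap.flip x)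
          (Pool.Agent.MP_f1c158_al.act.toLinearMap.flip y))) =
        actTwo Pool.Agent.MP_f1c158_al.act x y := by
      ext a b
      simp [actTwo]
    rw [this]
  · refine ⟨Pool.Agent.MP_f1c158_al.gen (ZMod 2) 2 2, ?_, ?_⟩
    · intro r
      simp only [evalPoly, Term.eval, List.map_cons, List.map_nil, List.sum_cons, List.sum_nil,
        List.ofFn_succ, List.ofFn_zero, List.prod_cons, List.prod_nil, mul_one, one_mul,
        Pool.Agent.MP_f1c158_al.act_22, Equiv.Perm.coe_one, id_eq, add_zero]
      simp only [← map_mul, ← map_add]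
      rw [show (Fin.succ 0 : Fin 2) = 1 from rfl, Equiv.swap_apply_left, Equiv.swap_apply_right,
        map_add TensorAlgebra.algebraMapInv, map_mul TensorAlgebra.algebraMapInv,
        map_mul TensorAlgebra.algebraMapInv, mul_comm (TensorAlgebra.algebraMapInv (r 1)),
        Pool.Agent.MP_f1c158_al.two_mod, map_zero]
    · refine TwoSidedIdeal.subset_span ⟨1, fun _ => 1, ?_⟩
      have hne : Equiv.swap (0 : Fin 2) 1 ≠ 1 := by decide
      simp [evalPoly, monomialPart, Term.eval, hne, List.ofFn_succ, List.ofFn_zero,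
        Pool.Agent.MP_f1c158_al.act_22_one]
  · rintro ⟨m, p, hp, hr⟩
    obtain ⟨r, hne⟩ := Pool.Agent.MP_f1c158_al.no_PI m p hp
    exact hne (hr r)

end Pool.Agent.Results.MP_f1c158_al.HopfTensor
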